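import Pool.Agent.PQP.StmtsE
import Pool.Agent.Common_Brouwer.Schauder

/-!
# Squad PQP, row PMI: the mixed Poincare-Miranda theorem
-/

set_option autoImplicit false

open scoped InnerProductSpace Topology
open MeasureTheory Filter Set

noncomputable section

namespace Pool.Agent.PQP.H37

open Pool.Agent.PQP Pool.Agent.Helper42_Paneitz

theorem pmi : PmiStmt := by
  intro p a b r R V hab hr hR hV hend hbox
  set K : Set (ℝ × E5) := {z | a ≤ z.1 ∧ z.1 ≤ b ∧ ⟪p, z.2⟫_ℝ = 0 ∧ ‖z.2‖ ≤ r} with hK
  have hKp : K = (Icc a b) ×ˢ ({v : E5 | ⟪p, v⟫_ℝ = 0} ∩ Metric.closedBall (0 : E5) r) := by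
    ext z
    simp only [hK, mem_ofPred_eq, mem_prod, mem_Icc, mem_inter_iff, Metric.mem_closedBall,
      dist_zero_right]
    tauto
  have hcl : IsClosed {v : E5 | ⟪p, v⟫_ℝ = 0} :=
    isClosed_eq (continuous_const.inner continuous_id) continuous_const
  have hKc : IsCompact K := by
    rw [hKp]
    exact isCompact_Icc.prod ((isCompact_closedBall (0 : E5) r).inter_left hcl)
  have hconv2 : Convex ℝ {v : E5 | ⟪p, v⟫_ℝ = 0} := by
    intro x hx y hy s t _ _ _
    have hx' : ⟪p, x⟫_ℝ = 0 := hx
    have hy' : ⟪p, y⟫_ℝ = 0 := hy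
    show ⟪p, s • x + t • y⟫_ℝ = 0
    rw [inner_add_right, inner_smul_right, inner_smul_right, hx', hy']
    ring
  have hKconv : Convex ℝ K := by
    rw [hKp]
    exact (convex_Icc a b).prod (hconv2.inter (convex_closedBall (0 : E5) r))
  have hKne : K.Nonempty :=
    ⟨(a, 0), le_rfl, hab.le, inner_zero_right _, by
      show ‖(0 : E5)‖ ≤ r
      rw [norm_zero]
      exact hr.le⟩
  set f : ℝ × E5 → ℝ × E5 := fun z => (max a (min b (z.1 + R z.1 z.2)), z.2 + V z.1 z.2) with hf
  have hfc : ContinuousOn f K := by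
    refine ContinuousOn.prodMk ?_ ?_
    · exact ContinuousOn.sup continuousOn_const
        (ContinuousOn.inf continuousOn_const (continuous_fst.continuousOn.add hR))
    · exact continuous_snd.continuousOn.add hV
  have hfm : MapsTo f K K := by
    rintro ⟨s, v⟩ ⟨h1, h2, h3, h4⟩
    obtain ⟨h5, h6⟩ := hbox s v h1 h2 h3 h4
    refine ⟨le_max_left _ _, max_le hab.le (min_le_left _ _), ?_, h6⟩
    show ⟪p, v + V s v⟫_ℝ = 0
    rw [inner_add_right, h5, add_zero]
    exact h3
  obtain ⟨⟨s, v⟩, ⟨h1, h2, h3, h4⟩, hfix⟩ := Common_Brouwer.schauder hKc hKconv hKne hfc hfm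
  have e1 : max a (min b (s + R s v)) = s := congrArg Prod.fst hfix
  have e2 : v + V s v = v := congrArg Prod.snd hfix
  have hV0 : V s v = 0 := by
    have := e2
    rwa [add_eq_left] at this
  refine ⟨s, v, h1, h2, h3, h4, ?_, hV0⟩
  have h1' : a ≤ s := h1
  have h2' : s ≤ b := h2
  rcases lt_trichotomy (R s v) 0 with hlt | heq | hgt
  · -- then `s = a`
    exfalso
    have hsa : s = a := by
      by_contra hne
      have hlt' : a < s := lt_of_le_of_ne h1' (Ne.symm hne)
      have h5 : min b (s + R s v) < s := lt_of_le_of_lt (min_le_right _ _) (by linarith)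
      have h6 : max a (min b (s + R s v)) < s := max_lt hlt' h5
      rw [e1] at h6
      exact lt_irrefl _ h6
    have h7 := (hend v h3 h4).1
    rw [hsa] at hlt
    linarith
  · exact heq
  · exfalso
    have hsb : s = b := by
      by_contra hne
      have hlt' : s < b := lt_of_le_of_ne h2' hne
      have h5 : s < min b (s + R s v) := lt_min hlt' (by linarith)
      have h6 : s < max a (min b (s + R s v)) := lt_of_lt_of_le h5 (le_max_right _ _)
      rw [e1] at h6
      exact lt_irrefl _ h6
    have h7 := (hend v h3 h4).2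
    rw [hsb] at hgt
    linarith

end Pool.Agent.PQP.H37
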